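import Pool.Agent.Helper15.T4.Stmts

set_option autoImplicit false

open Finset

namespace Pool.Agent.Helper71.T4

open Pool.Agent.Helper15.T4

/-- open paths -/
theorem path_sum {L : Type} [Fintype L] [DecidableEq L] (Q : Matrix L L ℂ) (k : ℕ) :
    ∀ F : L → L → ℂ, ∑ α : Fin (k + 1) → L, (∏ r : Fin k, Q (α r.castSucc) (α r.succ)) *
      F (α 0) (α (Fin.last k)) = ∑ x, ∑ y, (Q ^ k) x y * F x y := by
  induction k with
  | zero =>
    intro F
    rw [← Equiv.sum_comp (Equiv.funUnique (Fin 1) L).symm]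
    refine Finset.sum_congr rfl fun x _ => ?_
    rw [Finset.sum_eq_single x]
    · simp [Equiv.funUnique]
    · intro y _ hy
      simp [Matrix.one_apply_ne hy.symm]
    · simp
  | succ k ih =>
    intro F
    rw [← Equiv.sum_comp (Fin.consEquiv (fun _ : Fin (k + 2) => L)), Fintype.sum_prod_type]
    refine Finset.sum_congr rfl fun x _ => ?_
    have h := ih (fun u y => Q x u * F x y)
    calc _ = ∑ α : Fin (k + 1) → L, (∏ r : Fin k, Q (α r.castSucc) (α r.succ)) *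
          (Q x (α 0) * F x (α (Fin.last k))) := by
            refine Finset.sum_congr rfl fun α _ => ?_
            rw [Fin.prod_univ_succ]
            have e1 : (Fin.consEquiv (fun _ : Fin (k + 2) => L)) (x, α) = Fin.cons x α := rfl
            rw [e1]
            have e2 : ∀ r : Fin k, (Fin.cons x α : Fin (k + 2) → L) (r.succ.castSucc) =
                α r.castSucc := by
              intro r
              rw [← Fin.succ_castSucc, Fin.cons_succ]
            simp only [Fin.castSucc_zero, Fin.cons_zero, Fin.cons_succ, e2]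
            rw [← Fin.succ_last, Fin.cons_succ]
            ring
      _ = ∑ u, ∑ y, (Q ^ k) u y * (Q x u * F x y) := h
      _ = ∑ y, (Q ^ (k + 1)) x y * F x y := by
            rw [Finset.sum_comm]
            refine Finset.sum_congr rfl fun y _ => ?_
            rw [pow_succ', Matrix.mul_apply, Finset.sum_mul]
            refine Finset.sum_congr rfl fun u _ => ?_
            ring

/-- closed paths -/
theorem cyc_sum {L : Type} [Fintype L] [DecidableEq L] (Q : Matrix L L ℂ) (k : ℕ) :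
    ∑ α : Fin (k + 1) → L, ∏ r, Q (α r) (α (r + 1)) = (Q ^ (k + 1)).trace := by
  have h := path_sum Q k (fun x y => Q y x)
  calc _ = ∑ α : Fin (k + 1) → L, (∏ r : Fin k, Q (α r.castSucc) (α r.succ)) *
      Q (α (Fin.last k)) (α 0) := by
        refine Finset.sum_congr rfl fun α _ => ?_
        rw [Fin.prod_univ_castSucc]
        simp only [Fin.coeSucc_eq_succ, Fin.last_add_one]
    _ = ∑ x, ∑ y, (Q ^ k) x y * Q y x := h
    _ = (Q ^ (k + 1)).trace := by
        rw [pow_succ, Matrix.trace]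
        refine Finset.sum_congr rfl fun x _ => ?_
        rw [Matrix.diag_apply, Matrix.mul_apply]

theorem third_uniq : ∀ a b j : Fin 3, a ≠ b → j ≠ a → j ≠ b → j = -(a + b) := by decide

theorem third_ne : ∀ a b : Fin 3, a ≠ b → -(a + b) ≠ a ∧ -(a + b) ≠ b := by decide

/-- the labels of a vertex in the order arrival, departure, third -/
def eqT {L : Type} (a b : Fin 3) (h : a ≠ b) : (Fin 3 → L) ≃ L × (L × L) where
  toFun τ := (τ a, (τ b, τ (-(a + b))))
  invFun p j := if j = a then p.1 else if j = b then p.2.1 else p.2.2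
  left_inv τ := by
    funext j
    by_cases h1 : j = a
    · simp [h1]
    · by_cases h2 : j = b
      · simp [h2, h.symm]
      · simp only [h1, h2, if_false]
        rw [← third_uniq a b j h h1 h2]
  right_inv p := by
    obtain ⟨x, y, z⟩ := p
    have := third_ne a b h
    simp only [h.symm, if_true, if_false, this.1, this.2]

theorem symm3 {L ι : Type} [Fintype L] [Fintype ι] (m : Mdl L ι) (hm : m.Symm) (a b : Fin 3)
    (h : a ≠ b) (τ : Fin 3 → L) : m.w (τ 0) (τ 1) (τ 2) = m.w (τ a) (τ b) (τ (-(a + b))) := by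
  have h1 := fun x y z => (hm x y z).1
  have h2 := fun x y z => (hm x y z).2
  have e1 : (-(0 + 1) : Fin 3) = 2 := by decide
  have e2 : (-(0 + 2) : Fin 3) = 1 := by decide
  have e3 : (-(1 + 0) : Fin 3) = 2 := by decide
  have e4 : (-(1 + 2) : Fin 3) = 0 := by decide
  have e5 : (-(2 + 0) : Fin 3) = 1 := by decide
  have e6 : (-(2 + 1) : Fin 3) = 0 := by decide
  have key : ∀ a b : Fin 3, a ≠ b → (a = 0 ∧ b = 1) ∨ (a = 0 ∧ b = 2) ∨ (a = 1 ∧ b = 0) ∨
      (a = 1 ∧ b = 2) ∨ (a = 2 ∧ b = 0) ∨ (a = 2 ∧ b = 1) := by decide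
  rcases key a b h with ⟨rfl, rfl⟩ | ⟨rfl, rfl⟩ | ⟨rfl, rfl⟩ | ⟨rfl, rfl⟩ | ⟨rfl, rfl⟩ | ⟨rfl, rfl⟩
  · rw [e1]
  · rw [e2, h2]
  · rw [e3, h1]
  · rw [e4, h1, h2]
  · rw [e5, h2, h1]
  · rw [e6, h1 (τ 2) (τ 1) (τ 0), h2 (τ 1) (τ 2) (τ 0), h1 (τ 1) (τ 0) (τ 2)]

/-- one cycle -/
theorem block {L ι : Type} [Fintype L] [Fintype ι] [DecidableEq L] (m : Mdl L ι) (hm : m.Symm)
    (x : ι → ℝ) (k : ℕ) (a b : Fin (k + 1) → Fin 3) (hab : ∀ r, a r ≠ b r) :
    ∑ τ : Fin (k + 1) → (Fin 3 → L), ∏ r, (((m.w (τ r 0) (τ r 1) (τ r 2) : ℂ) *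
      m.l (τ r (-(a r + b r))) x) * m.AM (τ r (b r)) (τ (r + 1) (a (r + 1)))) =
    ((m.R x * m.AM) ^ (k + 1)).trace := by
  rw [← cyc_sum]
  set e : (Fin (k + 1) → (Fin 3 → L)) ≃ (Fin (k + 1) → L × (L × L)) :=
    Equiv.piCongrRight (fun r => eqT (a r) (b r) (hab r)) with he
  set e' : (Fin (k + 1) → (Fin 3 → L)) ≃ (Fin (k + 1) → L) × (Fin (k + 1) → L × L) :=
    e.trans (Equiv.arrowProdEquivProdArrow (Fin (k + 1)) (fun _ => L) (fun _ => L × L)) with he'
  have h1 : ∑ τ : Fin (k + 1) → (Fin 3 → L), ∏ r, (((m.w (τ r 0) (τ r 1) (τ r 2) : ℂ) *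
      m.l (τ r (-(a r + b r))) x) * m.AM (τ r (b r)) (τ (r + 1) (a (r + 1)))) =
      ∑ p : (Fin (k + 1) → L) × (Fin (k + 1) → L × L), ∏ r, (((m.w (p.1 r) (p.2 r).1 (p.2 r).2 :
        ℂ) * m.l (p.2 r).2 x) * m.AM (p.2 r).1 (p.1 (r + 1))) := by
    refine Fintype.sum_equiv e' _ _ fun τ => ?_
    refine Finset.prod_congr rfl fun r _ => ?_
    have hs := symm3 m hm (a r) (b r) (hab r) (τ r)
    rw [hs]
    rfl
  rw [h1, Fintype.sum_prod_type]
  refine Finset.sum_congr rfl fun α _ => ?_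
  have h2 := Finset.prod_univ_sum (fun _ : Fin (k + 1) => (univ : Finset (L × L)))
    (fun r (q : L × L) => ((m.w (α r) q.1 q.2 : ℂ) * m.l q.2 x) * m.AM q.1 (α (r + 1)))
  rw [Fintype.piFinset_univ] at h2
  show ∑ ρ : Fin (k + 1) → L × L, ∏ r, (((m.w (α r) (ρ r).1 (ρ r).2 : ℂ) * m.l (ρ r).2 x) *
    m.AM (ρ r).1 (α (r + 1))) = _
  rw [← h2]
  refine Finset.prod_congr rfl fun r _ => ?_
  rw [Fintype.sum_prod_type, Matrix.mul_apply]
  refine Finset.sum_congr rfl fun β _ => ?_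
  show _ = (∑ c, (m.w (α r) β c : ℂ) * m.l c x) * m.AM β (α (r + 1))
  rw [Finset.sum_mul]

theorem free_vertex {L ι : Type} [Fintype L] [Fintype ι] (m : Mdl L ι) (x : ι → ℝ) :
    ∑ τ : Fin 3 → L, ((m.w (τ 0) (τ 1) (τ 2) : ℂ) * ∏ j, m.l (τ j) x) = m.P x := by
  have h01 : (0 : Fin 3) ≠ 1 := by decide
  have e2 : (-(0 + 1) : Fin 3) = 2 := by decide
  have h1 : ∑ τ : Fin 3 → L, ((m.w (τ 0) (τ 1) (τ 2) : ℂ) * ∏ j, m.l (τ j) x) =
      ∑ p : L × (L × L), (m.w p.1 p.2.1 p.2.2 : ℂ) * m.l p.1 x * m.l p.2.1 x * m.l p.2.2 x := by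
    refine Fintype.sum_equiv (eqT 0 1 h01) _ _ fun τ => ?_
    have h2 : (eqT 0 1 h01) τ = (τ 0, (τ 1, τ 2)) := by
      show (τ 0, (τ 1, τ (-(0 + 1)))) = _
      rw [e2]
    rw [h2, Fin.prod_univ_three]
    ring
  rw [h1, Fintype.sum_prod_type]
  show _ = ∑ a, ∑ b, ∑ c, (m.w a b c : ℂ) * m.l a x * m.l b x * m.l c x
  refine Finset.sum_congr rfl fun a _ => ?_
  rw [Fintype.sum_prod_type]

theorem PSIC (hSTR : ST_STR) (hSTRU : ST_STRU) : ST_PSIC := by
  intro L ι _ _ _ m hm n I _ κ c x hc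
  classical
  obtain ⟨hval, hdis⟩ := hc
  have hc : DisjFam c := ⟨hval, hdis⟩
  obtain ⟨-, -, -, -, hcovU⟩ := hSTRU n I κ c hc
  -- the pairs
  have hinj : ∀ i, Set.InjOn (fun r : Fin (κ i + 1) =>
      s(((c i r).1, (c i r).2.2), ((c i (r + 1)).1, (c i (r + 1)).2.1)))
      ((univ : Finset (Fin (κ i + 1))) : Set (Fin (κ i + 1))) := by
    intro i
    have h := (hSTR n (κ i) (c i) (hval i)).2.1
    rw [E] at h
    apply Finset.card_image_iff.1
    rw [Finset.card_univ, Fintype.card_fin]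
    exact h
  have hdisE : ∀ i j, i ≠ j → Disjoint (E (c i)) (E (c j)) := by
    intro i j hij
    rw [Finset.disjoint_left]
    intro e he he'
    rw [E, Finset.mem_image] at he he'
    obtain ⟨r, -, rfl⟩ := he
    obtain ⟨r', -, hr'⟩ := he'
    have h1 : (c i r).1 ∈ vs (c i) := by
      rw [vs]
      exact Finset.mem_image_of_mem _ (Finset.mem_univ r)
    have h2 : (c i r).1 ∈ vs (c j) := by
      have h3 : ((c i r).1, (c i r).2.2) ∈
          s(((c j r').1, (c j r').2.2), ((c j (r' + 1)).1, (c j (r' + 1)).2.1)) := by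
        rw [hr']
        exact Sym2.mem_mk_left _ _
      rw [vs, Finset.mem_image]
      rcases Sym2.mem_iff.1 h3 with h | h
      · exact ⟨r', Finset.mem_univ _, (congrArg Prod.fst h).symm⟩
      · exact ⟨r' + 1, Finset.mem_univ _, (congrArg Prod.fst h).symm⟩
    exact Finset.disjoint_left.1 (hdis i j hij) h1 h2
  have hE : ∀ σ : HE n → L, ∏ e ∈ EU c, pairC m.S (e.map σ) = ∏ i, ∏ r : Fin (κ i + 1),
      m.AM (σ ((c i r).1, (c i r).2.2)) (σ ((c i (r + 1)).1, (c i (r + 1)).2.1)) := by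
    intro σ
    rw [EU, Finset.prod_biUnion (fun i _ j _ hij => hdisE i j hij)]
    refine Finset.prod_congr rfl fun i _ => ?_
    rw [E, Finset.prod_image (hinj i)]
    refine Finset.prod_congr rfl fun r _ => ?_
    rfl
  -- the covered half-edges
  have hcov : ∀ (v : Fin n) (j : Fin 3), (v, j) ∈ cov (EU c) ↔ ∃ (i : I) (r : Fin (κ i + 1)),
      v = (c i r).1 ∧ (j = (c i r).2.1 ∨ j = (c i r).2.2) := by
    intro v j
    rw [hcovU]
    constructor
    · rintro ⟨i, hi⟩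
      obtain ⟨r, hr⟩ := ((hSTR n (κ i) (c i) (hval i)).2.2.2.2 (v, j)).1 hi
      refine ⟨i, r, ?_⟩
      rcases hr with h | h
      · exact ⟨congrArg Prod.fst h, Or.inl (congrArg Prod.snd h)⟩
      · exact ⟨congrArg Prod.fst h, Or.inr (congrArg Prod.snd h)⟩
    · rintro ⟨i, r, h1, h2⟩
      refine ⟨i, ((hSTR n (κ i) (c i) (hval i)).2.2.2.2 (v, j)).2 ⟨r, ?_⟩⟩
      rcases h2 with h | h
      · exact Or.inl (by rw [h1, h])
      · exact Or.inr (by rw [h1, h])
  -- the vertices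
  set g : (Σ i, Fin (κ i + 1)) → Fin n := fun p => (c p.1 p.2).1 with hg
  have hginj : Function.Injective g := by
    rintro ⟨i, r⟩ ⟨i', r'⟩ h
    by_cases hii : i = i'
    · subst hii
      have h' : r = r' := (hval i).1 h
      rw [h']
    · exfalso
      have h1 : (c i r).1 ∈ vs (c i) := by
        rw [vs]
        exact Finset.mem_image_of_mem _ (Finset.mem_univ r)
      have h2 : (c i' r').1 ∈ vs (c i') := by
        rw [vs]
        exact Finset.mem_image_of_mem _ (Finset.mem_univ r')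
      have h3 : (c i r).1 = (c i' r').1 := h
      rw [h3] at h1
      exact Finset.disjoint_left.1 (hdis i i' hii) h1 h2
  set e : (Σ i, Fin (κ i + 1)) ⊕ ((Set.range g)ᶜ : Set (Fin n)) ≃ Fin n :=
    (Equiv.sumCongr (Equiv.ofInjective g hginj) (Equiv.refl _)).trans (Equiv.Set.sumCompl _) with he
  have he1 : ∀ p, e (Sum.inl p) = g p := fun p => rfl
  have he2 : ∀ v, e (Sum.inr v) = v.1 := fun v => rfl
  -- the local factors
  set f : (HE n → L) → Fin n → ℂ := fun σ v =>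
    (m.w (σ (v, 0)) (σ (v, 1)) (σ (v, 2)) : ℂ) *
      ∏ j, (if (v, j) ∈ cov (EU c) then 1 else m.l (σ (v, j)) x) with hf
  have hf1 : ∀ σ p, f σ (g p) = (m.w (σ (g p, 0)) (σ (g p, 1)) (σ (g p, 2)) : ℂ) *
      m.l (σ (g p, -((c p.1 p.2).2.1 + (c p.1 p.2).2.2))) x := by
    intro σ p
    have hne := (hval p.1).2 p.2
    have hiff : ∀ j, (g p, j) ∈ cov (EU c) ↔ (j = (c p.1 p.2).2.1 ∨ j = (c p.1 p.2).2.2) := by
      intro j
      rw [hcov]
      constructor
      · rintro ⟨i, r, h1, h2⟩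
        have h3 : g p = g ⟨i, r⟩ := h1
        have h4 := hginj h3
        subst h4
        exact h2
      · intro h
        exact ⟨p.1, p.2, rfl, h⟩
    rw [hf]
    show _ * _ = _ * _
    rw [Finset.prod_eq_single (-((c p.1 p.2).2.1 + (c p.1 p.2).2.2))]
    · rw [if_neg]
      rw [hiff]
      have := third_ne _ _ hne
      exact fun h => h.elim this.1 this.2
    · intro j _ hj
      rw [if_pos]
      rw [hiff]
      by_contra hcon
      exact hj (third_uniq _ _ j hne (fun h => hcon (Or.inl h)) (fun h => hcon (Or.inr h)))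
    · intro h
      exact absurd (Finset.mem_univ _) h
  have hf2 : ∀ σ (v : ((Set.range g)ᶜ : Set (Fin n))), f σ v.1 =
      (m.w (σ (v.1, 0)) (σ (v.1, 1)) (σ (v.1, 2)) : ℂ) * ∏ j, m.l (σ (v.1, j)) x := by
    intro σ v
    rw [hf]
    show _ * _ = _ * _
    congr 1
    refine Finset.prod_congr rfl fun j _ => ?_
    rw [if_neg]
    rw [hcov]
    rintro ⟨i, r, h1, -⟩
    exact v.2 ⟨⟨i, r⟩, h1.symm⟩
  -- the integrand
  have hint : ∀ σ : HE n → L, (∏ v, (m.w (σ (v, 0)) (σ (v, 1)) (σ (v, 2)) : ℂ)) *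
      (∏ e ∈ EU c, pairC m.S (e.map σ)) * ∏ h ∈ (cov (EU c))ᶜ, m.l (σ h) x =
      (∏ i, ∏ r : Fin (κ i + 1), (((m.w (σ (g ⟨i, r⟩, 0)) (σ (g ⟨i, r⟩, 1)) (σ (g ⟨i, r⟩, 2)) : ℂ) *
        m.l (σ (g ⟨i, r⟩, -((c i r).2.1 + (c i r).2.2))) x) *
        m.AM (σ (g ⟨i, r⟩, (c i r).2.2)) (σ (g ⟨i, r + 1⟩, (c i (r + 1)).2.1)))) *
      ∏ v : ((Set.range g)ᶜ : Set (Fin n)),
        ((m.w (σ (v.1, 0)) (σ (v.1, 1)) (σ (v.1, 2)) : ℂ) * ∏ j, m.l (σ (v.1, j)) x) := by
    intro σ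
    have h1 : ∏ h ∈ (cov (EU c))ᶜ, m.l (σ h) x =
        ∏ v, ∏ j, (if (v, j) ∈ cov (EU c) then 1 else m.l (σ (v, j)) x) := by
      rw [← Fintype.prod_prod_type (f := fun h : Fin n × Fin 3 =>
        (if h ∈ cov (EU c) then 1 else m.l (σ h) x))]
      rw [← Finset.prod_subset (Finset.subset_univ ((cov (EU c))ᶜ))]
      · refine Finset.prod_congr rfl fun h hh => ?_
        rw [if_neg (Finset.mem_compl.1 hh)]
      · intro h _ hh
        rw [if_pos]
        rwa [Finset.mem_compl, not_not] at hh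
    have h2 : (∏ v, (m.w (σ (v, 0)) (σ (v, 1)) (σ (v, 2)) : ℂ)) *
        ∏ v, ∏ j, (if (v, j) ∈ cov (EU c) then 1 else m.l (σ (v, j)) x) = ∏ v, f σ v := by
      rw [← Finset.prod_mul_distrib]
    have h3 : ∏ v, f σ v = (∏ i, ∏ r : Fin (κ i + 1), f σ (g ⟨i, r⟩)) *
        ∏ v : ((Set.range g)ᶜ : Set (Fin n)), f σ v.1 := by
      rw [← Equiv.prod_comp e, Fintype.prod_sum_type, Fintype.prod_sigma]
      rfl
    rw [h1, hE]
    calc _ = ((∏ v, (m.w (σ (v, 0)) (σ (v, 1)) (σ (v, 2)) : ℂ)) *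
        ∏ v, ∏ j, (if (v, j) ∈ cov (EU c) then 1 else m.l (σ (v, j)) x)) *
        ∏ i, ∏ r : Fin (κ i + 1), m.AM (σ ((c i r).1, (c i r).2.2))
          (σ ((c i (r + 1)).1, (c i (r + 1)).2.1)) := by ring
      _ = _ := by
        rw [h2, h3, mul_right_comm, ← Finset.prod_mul_distrib]
        congr 1
        · refine Finset.prod_congr rfl fun i _ => ?_
          rw [← Finset.prod_mul_distrib]
          refine Finset.prod_congr rfl fun r _ => ?_
          rw [hf1]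
        · exact Finset.prod_congr rfl fun v _ => hf2 σ v
  -- the equivalence
  set Θ : (HE n → L) ≃ ((i : I) → Fin (κ i + 1) → (Fin 3 → L)) ×
      (((Set.range g)ᶜ : Set (Fin n)) → (Fin 3 → L)) :=
    (((Equiv.curry (Fin n) (Fin 3) L).trans (Equiv.arrowCongr e.symm (Equiv.refl _))).trans
      (Equiv.sumArrowEquivProdArrow _ _ _)).trans
      (Equiv.prodCongr (Equiv.piCurry (fun (i : I) (_ : Fin (κ i + 1)) => (Fin 3 → L)))
        (Equiv.refl _)) with hΘ
  have hsum : m.Psi (EU c) x = ∑ p : ((i : I) → Fin (κ i + 1) → (Fin 3 → L)) ×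
      (((Set.range g)ᶜ : Set (Fin n)) → (Fin 3 → L)),
      (∏ i, ∏ r : Fin (κ i + 1), (((m.w (p.1 i r 0) (p.1 i r 1) (p.1 i r 2) : ℂ) *
        m.l (p.1 i r (-((c i r).2.1 + (c i r).2.2))) x) *
        m.AM (p.1 i r (c i r).2.2) (p.1 i (r + 1) (c i (r + 1)).2.1))) *
      ∏ v : ((Set.range g)ᶜ : Set (Fin n)),
        ((m.w (p.2 v 0) (p.2 v 1) (p.2 v 2) : ℂ) * ∏ j, m.l (p.2 v j) x) := by
    refine Fintype.sum_equiv Θ _ _ fun σ => ?_
    rw [hint σ]
    rfl
  rw [hsum, Fintype.sum_prod_type]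
  simp only []
  have hcard : Fintype.card ((Set.range g)ᶜ : Set (Fin n)) = n - ∑ i, (κ i + 1) := by
    have h := Fintype.card_congr e
    rw [Fintype.card_sum, Fintype.card_sigma, Fintype.card_fin] at h
    simp only [Fintype.card_fin] at h
    omega
  have hA := Finset.prod_univ_sum (fun i : I => (univ : Finset (Fin (κ i + 1) → (Fin 3 → L))))
    (fun i (τ : Fin (κ i + 1) → (Fin 3 → L)) => ∏ r : Fin (κ i + 1),
      (((m.w (τ r 0) (τ r 1) (τ r 2) : ℂ) *
        m.l (τ r (-((c i r).2.1 + (c i r).2.2))) x) *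
        m.AM (τ r (c i r).2.2) (τ (r + 1) (c i (r + 1)).2.1)))
  rw [Fintype.piFinset_univ] at hA
  have hB := Finset.prod_univ_sum (fun v : ((Set.range g)ᶜ : Set (Fin n)) =>
    (univ : Finset (Fin 3 → L))) (fun v (τ : Fin 3 → L) =>
      ((m.w (τ 0) (τ 1) (τ 2) : ℂ) * ∏ j, m.l (τ j) x))
  rw [Fintype.piFinset_univ] at hB
  calc _ = (∑ p : (i : I) → Fin (κ i + 1) → (Fin 3 → L),
      ∏ i, ∏ r : Fin (κ i + 1), (((m.w (p i r 0) (p i r 1) (p i r 2) : ℂ) *
        m.l (p i r (-((c i r).2.1 + (c i r).2.2))) x) *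
        m.AM (p i r (c i r).2.2) (p i (r + 1) (c i (r + 1)).2.1))) *
      ∑ q : ((Set.range g)ᶜ : Set (Fin n)) → (Fin 3 → L),
        ∏ v : ((Set.range g)ᶜ : Set (Fin n)),
          ((m.w (q v 0) (q v 1) (q v 2) : ℂ) * ∏ j, m.l (q v j) x) := by
        rw [Finset.sum_mul_sum]
    _ = _ := by
        rw [← hA, ← hB, mul_comm]
        congr 1
        · simp only [free_vertex]
          rw [Finset.prod_const, Finset.card_univ, hcard]
        · refine Finset.prod_congr rfl fun i _ => ?_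
          exact block m hm x (κ i) (fun r => (c i r).2.1) (fun r => (c i r).2.2)
            (fun r => (hval i).2 r)

end Pool.Agent.Helper71.T4
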